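import Pool.Agent.H77.KG.Targets

/-!
# Minimal invariant subgroups (row MEX of board kgr_modules)
-/

set_option autoImplicit false

open Set Pool.Agent.H77.BC Pool.Agent.H77.BD Pool.Agent.H77.KG

namespace Pool.Agent.H94.KGR

theorem pf_MEX (hADT : T_ADT) : T_MEX := by
  classical
  intro M U G V _ _ _ _ _ _ _ _ T X hXD hXT hXi
  have hex : ∃ n : ℕ, ∃ A : AddSubgroup V, A ≤ X ∧ U.D (A : Set V) ∧ Iv T A ∧
      (A : Set V).Infinite ∧ U.R (A : Set V) = n :=
    ⟨_, X, le_rfl, hXD, hXT, hXi, rfl⟩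
  obtain ⟨A, hAX, hAD, hAT, hAi, hAn⟩ := Nat.find_spec hex
  have hmin : ∀ B : AddSubgroup V, B ≤ X → U.D (B : Set V) → Iv T B → (B : Set V).Infinite →
      U.R (A : Set V) ≤ U.R (B : Set V) := by
    intro B h1 h2 h3 h4
    rw [hAn]
    exact Nat.find_min' hex ⟨B, h1, h2, h3, h4, rfl⟩
  have hfin : ∀ Y : Set V, U.D Y → Y.Nonempty → (U.R Y = 0 ↔ Y.Finite) :=
    fun Y h1 h2 => (Pool.Agent.H77.BCP.a_RKA U).fin h1 h2
  obtain ⟨A0, hA0, hcn, hr, -, hinv⟩ := (hADT U V).comp A hAD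
  have hA0T : Iv T A0 := by
    intro t ht v hv
    have h1 := hinv (DistribMulAction.toAddEquiv V t)
      (DFn_act (DFn_const t) DFn_id) (fun v => by
        constructor
        · intro h
          exact hAT t ht v h
        · intro h
          have h2 := hAT t⁻¹ (T.inv_mem ht) _ h
          simpa using h2) v
    exact h1.1 hv
  have hA0i : (A0 : Set V).Infinite := by
    intro hf
    have h1 : U.R (A0 : Set V) = 0 := (hfin _ hcn.1 ⟨0, A0.zero_mem⟩).2 hf
    have h2 : U.R (A : Set V) = 0 := by rw [← hr]; exact h1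
    exact hAi ((hfin _ hAD ⟨0, A.zero_mem⟩).1 h2)
  refine ⟨A0, hA0.trans hAX, ⟨hcn.1, hA0T, hA0i, ?_⟩, hcn⟩
  intro B hB hBD hBT hne
  by_contra hBi
  refine hne (hcn.2 B hB hBD ?_)
  rw [hr]
  exact hmin B (hB.trans (hA0.trans hAX)) hBD hBT hBi

end Pool.Agent.H94.KGR
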